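import Pool.Agent.H84.SR2.Def

/-!
[H84 SR2 KON]  SHARP RATE: the constants for large `d`.

`LL d = log d`, `be e d = d^(-e0)` with `e0 = e/(2000 mm e) > 0`, `mm e = ⌈80/e⌉₊ ≥ 1` (`Nat.ceil`, `80 / e ≥ 320`), so
`be e d ^ n = d^(-(n e0))` (`Real.rpow_natCast`, `Real.rpow_mul`). All statements are for fixed `e` and `d → ∞`.
* `LL_ev`: `isLittleO_log_rpow_atTop`, `isLittleO_log_rpow_rpow_atTop` or `Real.log_le_rpow_div` (for `r > 0`:
  `log x ≤ x^r / r`): `C * log d ^ k ≤ C * (d^r / r)^k = (C / r^k) * d^(r k)` with `r = a / (2 (k+1))`, and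
  `C / r^k ≤ d^(a/2)` eventually (`tendsto_rpow_atTop`, `tendsto_natCast_atTop_atTop`).
* `be_LL`: `C * LL^k ≤ d^(e0)`, multiply by `be = d^(-e0)`.
* `pow_ev`: `C * LL^k ≤ d^(a - n e0)`, multiply by `be^n = d^(-(n e0))`.
* `kon_ev`: write `L = LL d`, `m = mm e`, `b = be e d`. `exp (-L) = 1/d = d^(-1)`. Everything is a power of `d` times
  powers of `L` and constants; `q = b^5`, `q1 = b^5/(A L)`, `qn = q1^m/(A m) = b^(5m)/((A L)^m A m)`, where
  `b^(5m) = d^(-(5 m e0)) = d^(-e/400)` exactly. So `d^(-e/399)`... is a lower bound: `qn ≥ d^(-e/200)` eventually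
  (`qn_low`), `qn ≤ 1` and hence `k1 = qn^2 ≥ d^(-e/100)`, `k2 = qn^4 ≥ d^(-e/50)`.
  L1: `L ≥ 1` for `d ≥ 3`. t1: `t = d^(-1/2+e) ≤ 1`. tL: `d^(-1) ≤ d^(-1/2+e)`. q1': `b^5 ≤ 1/8`. q1q: equality
  `A * L * q1 = q`. qnq: equality `A * m * qn = q1^m`. qnL, k1L, k2L: from `qn_low`. S0b: `d^(-e/40) ≤ 1/4`. S0k:
  `S0^m = d^(-(e m/40)) ≤ d^(-2)` (as `m ≥ 80/e`), `A * d^(-2) ≤ d^(-1) ≤ k1 * t`. kapS: `A d^(-e/8) ≤ d^(-e/50) d^(-e/40)`.
  kapq: `A d^(-e/8) ≤ d^(-e/50) d^(-e/200)`. τ0. τk: `A C1 d^(-1/2) ≤ d^(-e/8) d^(-e/100) d^(-1/2+e)`.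
-/

set_option autoImplicit false

open Filter Topology

namespace Pool.Agent.H84.SRT

open Pool.Agent.H70.PL

private theorem kon_e0 {e : ℝ} (he : 0 < e) (hm : 0 < mm e) : 0 < e / (2000 * mm e) := by
  have : (0 : ℝ) < mm e := by exact_mod_cast hm
  positivity

theorem mm_pos {e : ℝ} (he : 0 < e) : 0 < mm e := by
  unfold mm
  exact Nat.ceil_pos.2 (by positivity)

theorem mm_low {e : ℝ} (he : 0 < e) : 80 / e ≤ (mm e : ℝ) := by
  unfold mm
  exact Nat.le_ceil _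

theorem be_pos (e : ℝ) {d : ℕ} (hd : 1 ≤ d) : 0 < be e d := by
  unfold be
  exact Real.rpow_pos_of_pos (by exact_mod_cast hd) _

theorem be_le_one {e : ℝ} (he : 0 < e) {d : ℕ} (hd : 1 ≤ d) : be e d ≤ 1 := by
  unfold be
  have h1 := kon_e0 he (mm_pos he)
  exact Real.rpow_le_one_of_one_le_of_nonpos (by exact_mod_cast hd) (by linarith)

private theorem be_pow (e : ℝ) (d n : ℕ) :
    be e d ^ n = (d : ℝ) ^ (-(n * (e / (2000 * mm e)))) := by
  unfold be
  rw [← Real.rpow_natCast, ← Real.rpow_mul (Nat.cast_nonneg d)]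
  congr 1
  ring

theorem LL_ev (C : ℝ) (k : ℕ) {a : ℝ} (ha : 0 < a) : ∀ᶠ d : ℕ in atTop, C * LL d ^ k ≤ (d : ℝ) ^ a := by
  have h := (((isLittleO_log_rpow_rpow_atTop (k : ℝ) ha).const_mul_left C).comp_tendsto
    tendsto_natCast_atTop_atTop).def (c := 1) one_pos
  filter_upwards [h] with d h3
  simp only [Function.comp_apply, Real.norm_eq_abs, one_mul, Real.rpow_natCast] at h3
  unfold LL
  calc C * Real.log d ^ k ≤ |C * Real.log d ^ k| := le_abs_self _
    _ ≤ |(d : ℝ) ^ a| := h3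
    _ = (d : ℝ) ^ a := abs_of_nonneg (Real.rpow_nonneg (Nat.cast_nonneg d) a)

theorem LL_one : ∀ᶠ d : ℕ in atTop, 1 ≤ LL d :=
  (Real.tendsto_log_atTop.comp tendsto_natCast_atTop_atTop).eventually_ge_atTop 1

/-- powers of the logarithm are negligible against `1/be` -/
theorem be_LL {e : ℝ} (he : 0 < e) (C : ℝ) (k : ℕ) : ∀ᶠ d : ℕ in atTop, C * LL d ^ k * be e d ≤ 1 := by
  filter_upwards [LL_ev C k (kon_e0 he (mm_pos he)), eventually_ge_atTop 1] with d h1 hd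
  have hd0 : (0 : ℝ) < d := by exact_mod_cast hd
  have h2 := mul_le_mul_of_nonneg_right h1 (be_pos e hd).le
  refine h2.trans (le_of_eq ?_)
  unfold be
  rw [← Real.rpow_add hd0, add_neg_cancel, Real.rpow_zero]

/-- powers of `1/be` are negligible against powers of `d` -/
theorem pow_ev {e : ℝ} (he : 0 < e) (C : ℝ) (k n : ℕ) {a : ℝ} (ha : n * (e / (2000 * mm e)) < a) :
    ∀ᶠ d : ℕ in atTop, C * LL d ^ k ≤ (d : ℝ) ^ a * be e d ^ n := by
  filter_upwards [LL_ev C k (sub_pos.2 ha), eventually_ge_atTop 1] with d h1 hd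
  have hd0 : (0 : ℝ) < d := by exact_mod_cast hd
  refine h1.trans (le_of_eq ?_)
  rw [be_pow, ← Real.rpow_add hd0]
  congr 1

private theorem mm_big {e : ℝ} (he : 0 < e) (he4 : e ≤ 1 / 4) : (320 : ℝ) ≤ mm e := by
  refine le_trans ?_ (mm_low he)
  rw [le_div_iff₀ he]
  linarith

/-- the most frequent case: `n ≤ 200`, `a = e/100` -/
theorem pow_ev' {e : ℝ} (he : 0 < e) (he4 : e ≤ 1 / 4) (C : ℝ) (k n : ℕ) (hn : n ≤ 200) :
    ∀ᶠ d : ℕ in atTop, C * LL d ^ k ≤ (d : ℝ) ^ (e / 100) * be e d ^ n := by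
  apply pow_ev he
  have h1 := mm_big he he4
  have h2 : (n : ℝ) ≤ 200 := by exact_mod_cast hn
  have h3 : (n : ℝ) * (e / (2000 * mm e)) ≤ 200 * (e / (2000 * 320)) := by
    apply mul_le_mul h2 _ (by positivity) (by norm_num)
    apply div_le_div_of_nonneg_left he.le (by norm_num)
    linarith
  refine lt_of_le_of_lt h3 ?_
  linarith

theorem qn_low {A e : ℝ} (hA : 1 ≤ A) (he : 0 < e) (he4 : e ≤ 1 / 4) :
    ∀ᶠ d : ℕ in atTop, (d : ℝ) ^ (-(e / 200)) ≤ qn A e d ∧ qn A e d ≤ 1 := by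
  have hm := mm_pos he
  have hm0 : (0 : ℝ) < mm e := by exact_mod_cast hm
  have hm1 : (1 : ℝ) ≤ mm e := by exact_mod_cast hm
  filter_upwards [LL_ev (A ^ (mm e + 1) * mm e) (mm e) (show 0 < e / 400 by linarith), LL_one,
    eventually_ge_atTop 1] with d h1 hL hd
  have hd0 : (0 : ℝ) < d := by exact_mod_cast hd
  have hA0 : 0 < A := by linarith
  have hL0 : 0 < LL d := by linarith
  have hb := be_pos e hd
  have hb1 := be_le_one he hd
  have hq : qq e d ^ mm e = (d : ℝ) ^ (-(e / 400)) := by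
    unfold qq
    rw [← pow_mul, be_pow]
    congr 1
    push_cast
    field_simp
    ring
  have hqn : qn A e d = (d : ℝ) ^ (-(e / 400)) / (A ^ (mm e + 1) * mm e * LL d ^ mm e) := by
    unfold qn q1
    rw [div_pow, hq, mul_pow, div_div]
    congr 1
    ring
  constructor
  · rw [hqn, le_div_iff₀ (by positivity)]
    calc (d : ℝ) ^ (-(e / 200)) * (A ^ (mm e + 1) * mm e * LL d ^ mm e)
        ≤ (d : ℝ) ^ (-(e / 200)) * (d : ℝ) ^ (e / 400) :=
          mul_le_mul_of_nonneg_left h1 (Real.rpow_nonneg hd0.le _)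
      _ = (d : ℝ) ^ (-(e / 400)) := by
          rw [← Real.rpow_add hd0]
          congr 1
          ring
  · have hAL : 1 ≤ A * LL d := one_le_mul_of_one_le_of_one_le hA hL
    have hq1 : qq e d ≤ 1 := by
      unfold qq
      exact pow_le_one₀ hb.le hb1
    have hq0 : 0 ≤ qq e d := by
      unfold qq
      positivity
    have h2 : q1 A e d ≤ 1 := by
      unfold q1
      rw [div_le_one (by linarith)]
      linarith
    have h3 : 0 ≤ q1 A e d := by
      unfold q1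
      positivity
    unfold qn
    rw [div_le_one (by positivity)]
    exact (pow_le_one₀ h3 h2).trans (one_le_mul_of_one_le_of_one_le hA hm1)

theorem kon_ev {A C1 e : ℝ} (hA : 1 ≤ A) (hC : 0 ≤ C1) (he : 0 < e) (he4 : e ≤ 1 / 4) : ∀ᶠ d : ℕ in atTop,
    Kon A (LL d) (tt e d) (C1 * hh d) (qq e d) (q1 A e d) (qn A e d) (k1 A e d) (k2 A e d) (kap e d) (S0 e d)
      (mm e) := by
  have hm := mm_pos he
  have hm0 : (0 : ℝ) < mm e := by exact_mod_cast hm
  have hml := mm_low he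
  have he0 := kon_e0 he hm
  have hA0 : 0 < A := by linarith
  filter_upwards [qn_low hA he he4, LL_one, eventually_ge_atTop 1,
    LL_ev 8 0 (show 0 < 5 * (e / (2000 * mm e)) by positivity), LL_ev 4 0 (show 0 < e / 40 by linarith),
    LL_ev A 0 (show (0 : ℝ) < 1 by norm_num), LL_ev A 0 (show 0 < 2 * e / 25 by linarith),
    LL_ev (A * C1) 0 (show 0 < e / 2 by linarith)] with d hqn hL hd h8 h4 hA1 hA2 hA3
  rw [pow_zero, mul_one] at h8 h4 hA1 hA2 hA3
  have hd0 : (0 : ℝ) < d := by exact_mod_cast hd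
  have hd1 : (1 : ℝ) ≤ d := by exact_mod_cast hd
  have hL0 : 0 < LL d := by linarith
  have hb := be_pos e hd
  have mono : ∀ {x y : ℝ}, x ≤ y → (d : ℝ) ^ x ≤ (d : ℝ) ^ y := fun h =>
    Real.rpow_le_rpow_of_exponent_le hd1 h
  have hpos : ∀ x : ℝ, 0 < (d : ℝ) ^ x := fun x => Real.rpow_pos_of_pos hd0 x
  have hexp : Real.exp (-LL d) = (d : ℝ) ^ (-1 : ℝ) := by
    unfold LL
    rw [Real.exp_neg, Real.exp_log hd0, Real.rpow_neg_one]
  have hqn0 : 0 < qn A e d := lt_of_lt_of_le (hpos _) hqn.1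
  have hk1 : (d : ℝ) ^ (-(e / 100)) ≤ k1 A e d := by
    unfold k1
    calc (d : ℝ) ^ (-(e / 100)) = ((d : ℝ) ^ (-(e / 200))) ^ 2 := by
          rw [← Real.rpow_natCast, ← Real.rpow_mul hd0.le]
          congr 1
          push_cast
          ring
      _ ≤ qn A e d ^ 2 := pow_le_pow_left₀ (hpos _).le hqn.1 2
  have hk2 : (d : ℝ) ^ (-(e / 50)) ≤ k2 A e d := by
    unfold k2
    calc (d : ℝ) ^ (-(e / 50)) = ((d : ℝ) ^ (-(e / 200))) ^ 4 := by
          rw [← Real.rpow_natCast, ← Real.rpow_mul hd0.le]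
          congr 1
          push_cast
          ring
      _ ≤ qn A e d ^ 4 := pow_le_pow_left₀ (hpos _).le hqn.1 4
  have hk1p : 0 < k1 A e d := lt_of_lt_of_le (hpos _) hk1
  have hk2p : 0 < k2 A e d := lt_of_lt_of_le (hpos _) hk2
  have htt : 0 < tt e d := hpos _
  refine ⟨hL, ?_, ?_, ?_, ?_, ?_, ?_, ?_, hm, ?_, ?_, ?_, ?_, hpos _, ?_, ?_, ?_, ?_, ?_, ?_, ?_⟩
  · unfold tt
    exact Real.rpow_le_one_of_one_le_of_nonpos hd1 (by linarith)
  · rw [hexp]
    exact mono (by linarith)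
  · have h5 : qq e d * (d : ℝ) ^ (5 * (e / (2000 * mm e))) = 1 := by
      unfold qq
      rw [be_pow, ← Real.rpow_add hd0]
      have : (-(((5 : ℕ) : ℝ) * (e / (2000 * (mm e : ℝ)))) + 5 * (e / (2000 * (mm e : ℝ)))) = 0 := by
        push_cast
        ring
      rw [this, Real.rpow_zero]
    have h6 : 0 ≤ qq e d := by
      unfold qq
      positivity
    nlinarith [mul_le_mul_of_nonneg_left h8 h6]
  · unfold q1 qq
    positivity
  · unfold q1
    rw [mul_div_cancel₀ _ (by positivity)]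
  · rw [hexp]
    exact (mono (by linarith)).trans hqn.1
  · unfold qn
    rw [mul_div_cancel₀ _ (by positivity)]
  · rw [hexp]
    exact (mono (by linarith)).trans hk1
  · unfold k1
    exact pow_le_one₀ hqn0.le hqn.2
  · rw [hexp]
    exact (mono (by linarith)).trans hk2
  · unfold k2
    exact pow_le_one₀ hqn0.le hqn.2
  · have h5 : S0 e d * (d : ℝ) ^ (e / 40) = 1 := by
      unfold S0
      rw [← Real.rpow_add hd0, neg_add_cancel, Real.rpow_zero]
    have h6 : 0 ≤ S0 e d := (hpos _).le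
    nlinarith [mul_le_mul_of_nonneg_left h4 h6]
  · have h5 : S0 e d ^ mm e ≤ (d : ℝ) ^ (-2 : ℝ) := by
      unfold S0
      rw [← Real.rpow_natCast, ← Real.rpow_mul hd0.le]
      apply mono
      have h6 : 80 ≤ (mm e : ℝ) * e := by
        rwa [div_le_iff₀ he] at hml
      nlinarith
    calc A * S0 e d ^ mm e ≤ (d : ℝ) ^ (1 : ℝ) * (d : ℝ) ^ (-2 : ℝ) :=
          mul_le_mul hA1 h5 (pow_nonneg (hpos _).le _) (hpos _).le
      _ = (d : ℝ) ^ (-1 : ℝ) := by
          rw [← Real.rpow_add hd0]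
          norm_num
      _ ≤ (d : ℝ) ^ (-(e / 100) + (-(1 / 2 : ℝ) + e)) := mono (by linarith)
      _ = (d : ℝ) ^ (-(e / 100)) * tt e d := by
          rw [Real.rpow_add hd0]
          rfl
      _ ≤ k1 A e d * tt e d := mul_le_mul_of_nonneg_right hk1 htt.le
  · rw [hexp]
    exact mono (by linarith)
  · calc A * kap e d ≤ (d : ℝ) ^ (2 * e / 25) * (d : ℝ) ^ (-(e / 8)) :=
          mul_le_mul_of_nonneg_right hA2 (hpos _).le
      _ = (d : ℝ) ^ (-(e / 50)) * (d : ℝ) ^ (-(e / 40)) := by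
          rw [← Real.rpow_add hd0, ← Real.rpow_add hd0]
          congr 1
          ring
      _ ≤ k2 A e d * S0 e d := mul_le_mul_of_nonneg_right hk2 (hpos _).le
  · calc A * kap e d ≤ (d : ℝ) ^ (2 * e / 25) * (d : ℝ) ^ (-(e / 8)) :=
          mul_le_mul_of_nonneg_right hA2 (hpos _).le
      _ = (d : ℝ) ^ (-(9 * e / 200)) := by
          rw [← Real.rpow_add hd0]
          congr 1
          ring
      _ ≤ (d : ℝ) ^ (-(e / 50) + -(e / 200)) := mono (by linarith)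
      _ = (d : ℝ) ^ (-(e / 50)) * (d : ℝ) ^ (-(e / 200)) := Real.rpow_add hd0 _ _
      _ ≤ k2 A e d * qn A e d := mul_le_mul hk2 hqn.1 (hpos _).le hk2p.le
  · unfold hh
    positivity
  · have h5 : hh d = (d : ℝ) ^ (-(1 / 2 : ℝ)) := by
      unfold hh
      rw [Real.rpow_neg hd0.le, ← Real.sqrt_eq_rpow, one_div]
    calc A * (C1 * hh d) = (A * C1) * (d : ℝ) ^ (-(1 / 2 : ℝ)) := by rw [h5]; ring
      _ ≤ (d : ℝ) ^ (e / 2) * (d : ℝ) ^ (-(1 / 2 : ℝ)) := mul_le_mul_of_nonneg_right hA3 (hpos _).le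
      _ = (d : ℝ) ^ (e / 2 + -(1 / 2 : ℝ)) := (Real.rpow_add hd0 _ _).symm
      _ ≤ (d : ℝ) ^ (-(e / 8) + -(e / 100) + (-(1 / 2 : ℝ) + e)) := mono (by linarith)
      _ = kap e d * (d : ℝ) ^ (-(e / 100)) * tt e d := by
          rw [Real.rpow_add hd0, Real.rpow_add hd0]
          rfl
      _ ≤ kap e d * k1 A e d * tt e d :=
          mul_le_mul_of_nonneg_right (mul_le_mul_of_nonneg_left hk1 (hpos _).le) htt.le

end Pool.Agent.H84.SRT
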