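import Pool.Agent.H84.SR2.Stp
import Pool.Agent.H70.PL.Cau

/-!
[H84 SR2 SEQ]  SHARP RATE, piece 5: the sequence of maps.

* `start`: `HH` for `X = Xs`, `σ = cS hh`: `Act` at `j` would give `xx 0 ≤ rs ≤ 1`, but `xx 0 = cX cS (hh √d) EE ≥ 8 * 10^11`
  (`hh d * √d = 1`, `Ph _ _ 0 = 1`, `EE_one`).
* `seq_ex`: recursion over `n` with the invariant `Amp s w (cY * cS * hh * ∑ k < n, be^k) (X - Xs)` and
  `HH e cX (cS hh be^n) s w Xs X` (subtype or `exists_seq`-style choice: `Nat.rec` on `{X : CV d // P n X}`; the step function is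
  chosen from `step`). `∑ k < n, be^k ≤ 2` (`geom_sum`, or `≤ 1/(1 - be)`), `cY * cS * 2 ≤ c1/2`.
* `aa_bd`: `exists_pt`, `aa_phase`, `aa_ptX`: `‖aa X (pt d b u)‖ = √d (‖Jc‖/nm²)(1+‖u‖²/d)`, `‖Jc‖ ≤ nm (F) nm (F')` (`wd_le`),
  `nm F' ≤ (MM+1) w b` (`cauP` with radius 1, `nm_up`, `Fb_diff`), `nm F ≥ k1 tt/2 w b` (`nm_low`).
* `EE_bd`: `exists_pt`, `EE_phase`, `EE_up`, `nm_low`.
* `act_ev`: `xx i ≤ cX (cS hh be^n) √d E B^i ≤ C be^n B^j` for `i ≤ j` (`Ph ≤ B^i`), tends to 0 (`be < 1`), and `rs > 0`.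
* `sta`: `ctx_ev`, `seq_ex`, `act_ev`; `C1 = c1`; `cY * σ_n = cY cS hh be^n ≤ c1 hh be^n`; from `HH` at `j` drop `xx ≥ 0`.
-/

set_option autoImplicit false

open Polynomial ComplexConjugate Filter Topology

namespace Pool.Agent.H84.SRT

open Pool.H70.SF Pool.Agent.H85.LD Pool.H91.SR Pool.Agent.H70.PL Pool.Agent.H47.SR

variable {d : ℕ} {A e CN : ℝ} {s : Finset ℂ} {w : ℂ → ℝ} {Xs : CV d}

theorem sq_hh_sqrt (hd : 1 ≤ d) : hh d * √d = 1 := by
  unfold hh
  have h : (√d : ℝ) ≠ 0 := (Real.sqrt_pos.2 (by exact_mod_cast hd)).ne'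
  field_simp

theorem sq_be1 (h : Ctx A e CN d s w Xs) : be e d ≤ 1 / 2 := by
  have h1 := h.bsm
  have h2 := h.bpos
  nlinarith

theorem sq_wpos (h : Ctx A e CN d s w Xs) (b : ℂ) : 0 < w b := h.wor.wgt.pos b

theorem start (h : Ctx A e CN d s w Xs) : HH e cX (cS * hh d) s w Xs Xs := by
  intro c hc _ j hj
  exfalso
  have h0 := hj 0 (Nat.zero_le _)
  have hA : Amp s w (c1 * hh d) (Xs - Xs) := by
    rw [sub_self]
    exact Amp_mono (sq_wpos h) (mul_nonneg (by norm_num [c1]) (hh_pos h.d1).le) (Amp_zero s w)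
  have h1 := EE_one h hA hc
  have h2 : xx cX (cS * hh d) s w Xs c 0 = 8 * 10 ^ 11 * (10 ^ 7 * EE s w Xs c) := by
    have e1 : Ph Xs c 0 = 1 := by
      unfold Ph
      simp
    unfold xx
    rw [e1, show cX * (cS * hh d) * √d * EE s w Xs c * 1 = cX * cS * (hh d * √d) * EE s w Xs c by ring,
      sq_hh_sqrt h.d1]
    unfold cX cS
    ring
  rw [h2] at h0
  have h3 := sq_be1 h
  have h4 := h.bpos
  have h5 : rs e d ≤ 1 := by
    unfold rs
    nlinarith
  linarith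

theorem seq_ex (h : Ctx A e CN d s w Xs) : ∃ X : ℕ → CV d, (∀ n, Amp s w (c1 / 2 * hh d) (X n - Xs)) ∧
    (∀ n, Amp s w (cY * (cS * hh d * be e d ^ n)) (X (n + 1) - X n)) ∧
    ∀ n, HH e cX (cS * hh d * be e d ^ n) s w Xs (X n) := by
  have hb0 := h.bpos
  have hb1 := sq_be1 h
  have hh0 := hh_pos h.d1
  have hw := sq_wpos h
  obtain ⟨Inv, hInv⟩ : ∃ Inv : ℕ → CV d → Prop, ∀ n X, Inv n X ↔
      (Amp s w (cY * cS * hh d * ∑ k ∈ Finset.range n, be e d ^ k) (X - Xs) ∧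
        HH e cX (cS * hh d * be e d ^ n) s w Xs X) := ⟨_, fun _ _ => Iff.rfl⟩
  have hsum : ∀ n, ∑ k ∈ Finset.range n, be e d ^ k ≤ 2 := by
    intro n
    refine le_trans (Finset.sum_le_sum fun k _ => ?_) (sum_geometric_two_le n)
    exact pow_le_pow_left₀ hb0.le hb1 k
  have hamp : ∀ n X, Inv n X → Amp s w (c1 / 2 * hh d) (X - Xs) := by
    intro n X hI
    rw [hInv] at hI
    refine Amp_mono hw ?_ hI.1
    have h1 := hsum n
    have h2 : cY * cS * hh d * ∑ k ∈ Finset.range n, be e d ^ k ≤ cY * cS * hh d * 2 :=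
      mul_le_mul_of_nonneg_left h1 (mul_nonneg (by norm_num [cY, cS]) hh0.le)
    refine h2.trans ?_
    unfold cY cS c1
    nlinarith
  have hstep : ∀ n X, Inv n X → ∃ X', Inv (n + 1) X' ∧
      Amp s w (cY * (cS * hh d * be e d ^ n)) (X' - X) := by
    intro n X hI
    have hI' := (hInv n X).1 hI
    have hS : Stg A e CN (cS * hh d * be e d ^ n) s w Xs X := by
      refine ⟨h, ?_, ?_, hamp n X hI, hI'.2⟩
      · have : (0 : ℝ) < cS := by norm_num [cS]
        positivity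
      · have h1 : be e d ^ n ≤ 1 := pow_le_one₀ hb0.le (by linarith)
        have h2 : 0 ≤ cS * hh d := mul_nonneg (by norm_num [cS]) hh0.le
        nlinarith
    obtain ⟨Y, hY, hH⟩ := step hS
    refine ⟨X + Y, (hInv _ _).2 ⟨?_, ?_⟩, ?_⟩
    · have h1 := Amp_add hI'.1 hY
      rw [show X - Xs + Y = X + Y - Xs by abel] at h1
      refine Amp_mono hw (le_of_eq ?_) h1
      rw [Finset.sum_range_succ]
      ring
    · rw [show cS * hh d * be e d ^ (n + 1) = be e d * (cS * hh d * be e d ^ n) by ring]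
      exact hH
    · rw [add_sub_cancel_left]
      exact hY
  choose! f hf using hstep
  obtain ⟨X, hX0, hXs⟩ : ∃ X : ℕ → CV d, X 0 = Xs ∧ ∀ n, X (n + 1) = f n (X n) :=
    ⟨fun n => Nat.rec Xs (fun n x => f n x) n, rfl, fun _ => rfl⟩
  have hI : ∀ n, Inv n (X n) := by
    intro n
    induction n with
    | zero =>
      rw [hInv, hX0, Finset.sum_range_zero, mul_zero, pow_zero, mul_one, sub_self]
      exact ⟨Amp_zero s w, start h⟩
    | succ n ih =>
      rw [hXs]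
      exact (hf n _ ih).1
  refine ⟨X, fun n => hamp n _ (hI n), fun n => ?_, fun n => ((hInv _ _).1 (hI n)).2⟩
  rw [hXs]
  exact (hf n _ (hI n)).2

theorem aa_bd (h : Ctx A e CN d s w Xs) : ∃ B : ℝ, 1 ≤ B ∧ ∀ X : CV d, Amp s w (c1 * hh d) (X - Xs) → ∀ y, IsU y →
    ‖aa X y‖ ≤ B := by
  have hk : 0 < k1 A e d * tt e d / 2 := half_pos h.kt
  obtain ⟨k, hkd⟩ : ∃ k, k = k1 A e d * tt e d / 2 := ⟨_, rfl⟩
  rw [← hkd] at hk
  refine ⟨max 1 (√d * ((MM + 1) / k) ^ 2 * 2), le_max_left _ _, fun X hX y hy => ?_⟩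
  obtain ⟨b, hb, u, z, hu, hz, rfl⟩ := exists_pt h.d1 h.wor.cov hy
  refine le_trans ?_ (le_max_right _ _)
  rw [aa_phase X hz, aa_ptX h.d1]
  have hw := sq_wpos h b
  have hl := (nm_low h hX hb (u := u) (by linarith)).1
  rw [← hkd] at hl
  have hup := nm_up h hX hb (u := u) (by linarith)
  have hder : nm (deriv (Fb X b) u) ≤ (MM + 1) * w b / 1 := by
    refine cauP (Fb_diff X b) u 1 _ one_pos fun v hv => nm_up h hX hb ?_
    have := norm_add_le (v - u) u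
    rw [sub_add_cancel] at this
    linarith
  rw [div_one] at hder
  have hMM : 0 < MM + 1 := by
    unfold MM
    norm_num
  have hJ : ‖Jc (Fb X b) u‖ ≤ ((MM + 1) * w b) * ((MM + 1) * w b) := by
    unfold Jc
    refine (wd_le _ _).trans ?_
    exact mul_le_mul hup hder (nm_nonneg _) (by positivity)
  have hq : ‖Jc (Fb X b) u‖ / nm (Fb X b u) ^ 2 ≤ ((MM + 1) / k) ^ 2 := by
    have h1 : (k * w b) ^ 2 ≤ nm (Fb X b u) ^ 2 := pow_le_pow_left₀ (by positivity) hl 2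
    have h2 : 0 < (k * w b) ^ 2 := by positivity
    calc ‖Jc (Fb X b) u‖ / nm (Fb X b u) ^ 2
        ≤ (((MM + 1) * w b) * ((MM + 1) * w b)) / (k * w b) ^ 2 := div_le_div₀ (by positivity) hJ h2 h1
      _ = ((MM + 1) / k) ^ 2 := by
        field_simp
  have h2 : 1 + ‖u‖ ^ 2 / d ≤ 2 := by
    have hd : (1 : ℝ) ≤ d := by exact_mod_cast h.d1
    have h3 : ‖u‖ ^ 2 / d ≤ 1 := by
      rw [div_le_one (by linarith)]
      have := norm_nonneg u
      nlinarith
    linarith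
  have h3 : 0 ≤ 1 + ‖u‖ ^ 2 / d := by positivity
  exact mul_le_mul (mul_le_mul_of_nonneg_left hq (Real.sqrt_nonneg _)) h2 h3 (by positivity)

theorem EE_bd (h : Ctx A e CN d s w Xs) : ∃ B : ℝ, 1 ≤ B ∧ ∀ X : CV d, Amp s w (c1 * hh d) (X - Xs) → ∀ y, IsU y →
    0 ≤ EE s w X y ∧ EE s w X y ≤ B := by
  have hk : 0 < k1 A e d * tt e d / 2 := half_pos h.kt
  obtain ⟨k, hkd⟩ : ∃ k, k = k1 A e d * tt e d / 2 := ⟨_, rfl⟩
  rw [← hkd] at hk
  refine ⟨max 1 (25000 * (1 / k)), le_max_left _ _, fun X hX y hy => ⟨?_, ?_⟩⟩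
  · unfold EE WW
    refine div_nonneg (Finset.sum_nonneg fun b _ => ?_) (nm_nonneg _)
    exact mul_nonneg (sq_wpos h b).le (Real.exp_pos _).le
  · obtain ⟨b, hb, u, z, hu, hz, rfl⟩ := exists_pt h.d1 h.wor.cov hy
    refine le_trans ?_ (le_max_right _ _)
    rw [EE_phase s w X hz]
    refine (EE_up h hX hb (by linarith)).trans ?_
    have hw := sq_wpos h b
    have hl := (nm_low h hX hb (u := u) (by linarith)).1
    rw [← hkd] at hl
    have h1 : w b / nm (Fb X b u) ≤ 1 / k := by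
      have h2 : 0 < k * w b := by positivity
      rw [div_le_div_iff₀ (lt_of_lt_of_le h2 hl) hk]
      linarith
    linarith

theorem sq_Ph {X : CV d} {B : ℝ} (h : Ctx A e CN d s w Xs) (hX : Amp s w (c1 * hh d) (X - Xs))
    (ha : ∀ y, IsU y → ‖aa X y‖ ≤ B) {c : ℂ × ℂ} (hc : IsU c) (i : ℕ) : Ph X c i ≤ B ^ i := by
  unfold Ph al
  calc ∏ l ∈ Finset.range i, ‖aa X (ob X c l)‖ ≤ ∏ _l ∈ Finset.range i, B :=
        Finset.prod_le_prod (fun _ _ => norm_nonneg _) fun l _ => ha _ (isU_ob h hX hc l)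
    _ = B ^ i := by simp

theorem sq_Ph0 (X : CV d) (c : ℂ × ℂ) (i : ℕ) : 0 ≤ Ph X c i := by
  unfold Ph
  exact Finset.prod_nonneg fun _ _ => norm_nonneg _

theorem act_ev (h : Ctx A e CN d s w Xs) (j : ℕ) : ∃ n0 : ℕ, ∀ n ≥ n0, ∀ X : CV d, Amp s w (c1 * hh d) (X - Xs) →
    ∀ c, IsU c → Act e cX (cS * hh d * be e d ^ n) s w X c j := by
  obtain ⟨B, hB1, hB⟩ := aa_bd h
  obtain ⟨E, hE1, hE⟩ := EE_bd h
  have hb0 := h.bpos
  have hb1 := sq_be1 h
  have hh0 := hh_pos h.d1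
  have hcX : 0 < cX := by norm_num [cX]
  have hcS : 0 < cS := by norm_num [cS]
  have hrs : 0 < rs e d := by
    unfold rs
    positivity
  have hK : 0 < cX * cS * E * B ^ j := by positivity
  obtain ⟨n0, hn0⟩ := exists_pow_lt_of_lt_one (div_pos hrs hK) (show be e d < 1 by linarith)
  refine ⟨n0, fun n hn X hX c hc i hi => ?_⟩
  have h1 : be e d ^ n ≤ rs e d / (cX * cS * E * B ^ j) :=
    (pow_le_pow_of_le_one hb0.le (by linarith) hn).trans hn0.le
  rw [le_div_iff₀ hK] at h1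
  refine le_trans ?_ h1
  have e1 : xx cX (cS * hh d * be e d ^ n) s w X c i =
      be e d ^ n * (cX * cS * (EE s w X c * Ph X c i)) := by
    unfold xx
    rw [show cX * (cS * hh d * be e d ^ n) * √d * EE s w X c * Ph X c i =
      (hh d * √d) * (be e d ^ n * (cX * cS * (EE s w X c * Ph X c i))) by ring, sq_hh_sqrt h.d1, one_mul]
  rw [e1]
  refine mul_le_mul_of_nonneg_left ?_ (by positivity)
  rw [mul_assoc (cX * cS)]
  refine mul_le_mul_of_nonneg_left ?_ (by positivity)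
  have h2 : Ph X c i ≤ B ^ j := (sq_Ph h hX (hB X hX) hc i).trans (pow_le_pow_right₀ hB1 hi)
  exact mul_le_mul (hE X hX c hc).2 h2 (sq_Ph0 X c i) (by positivity)

theorem sta {A : ℝ} (hA : 1 ≤ A) (hcnt : CntStmt A) (hcvd : CvdStmt A) (hone : OneStmt A) (hrat : RatStmt A)
    (htwo : TwoStmt A) : StaStmt A := by
  obtain ⟨CN, hC⟩ := ctx_ev hA hcnt hcvd hone hrat htwo
  refine ⟨c1, by norm_num [c1], ?_⟩
  intro e he he4
  filter_upwards [hC e he he4] with d hd s w Xs hW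
  have h := hd s w Xs hW
  obtain ⟨X, hX1, hX2, hX3⟩ := seq_ex h
  have hh0 := hh_pos h.d1
  have hb0 := h.bpos
  have hw := sq_wpos h
  have hX1' : ∀ n, Amp s w (c1 * hh d) (X n - Xs) := by
    intro n
    refine Amp_mono hw ?_ (hX1 n)
    have : (0 : ℝ) < c1 := by norm_num [c1]
    nlinarith
  refine ⟨X, hX1', fun n => ?_, fun j => ?_⟩
  · refine Amp_mono hw ?_ (hX2 n)
    have h1 : 0 ≤ hh d * be e d ^ n := by positivity
    unfold cY cS c1
    nlinarith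
  · obtain ⟨n0, hn0⟩ := act_ev h j
    refine ⟨n0, fun n hn c hc hc0 => ?_⟩
    have h1 := hX3 n c hc hc0 j (hn0 n hn (X n) (hX1' n) c hc)
    obtain ⟨E, _, hE⟩ := EE_bd h
    have hx : 0 ≤ xx cX (cS * hh d * be e d ^ n) s w (X n) c j := by
      unfold xx
      have a1 := (hE (X n) (hX1' n) c hc).1
      have a2 := sq_Ph0 (X n) c j
      have a3 : 0 < cX := by norm_num [cX]
      have a4 : 0 < cS := by norm_num [cS]
      positivity
    refine ⟨fun z hz hz0 => ?_, fun hj => ?_⟩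
    · have := h1.1 z hz hz0
      linarith
    · have := h1.2 hj
      linarith

end Pool.Agent.H84.SRT
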