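import Pool.Agent.H84.SR2.Ker

/-!
[H84 SR2 ALF]  SHARP RATE, piece 5: the linear part `ee` as a sum over the letters.

`alf X σ w b u c`: the two coefficients of the letter of `c` in `ee (Fb X b u) (Fb (σ • YY) b u)`.
* `ee_YY`: `Fb_csmul`, `Fb_YY`, `wd` is linear in the second variable, division by `n2`.
* `ee_cut`: the difference is the sum over the other centres; each term is at most
  `σ w c ‖kr d b c u‖ (‖F.1‖ + ‖F.2‖)/nm² ≤ 2 σ w c ‖kr d b c u‖ / nm` (`nm_fst`, `nm_snd`, `n2_eq`); `kr_tail`.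
* `alf_own`: `kr_own`; one of `‖F.1‖`, `‖F.2‖` is at least `nm F / 2` (`nm_sq`).
-/

set_option autoImplicit false

open Polynomial ComplexConjugate Filter Topology

namespace Pool.Agent.H84.SRT

open Pool.H70.SF Pool.Agent.H85.LD Pool.H91.SR Pool.Agent.H70.PL Pool.Agent.H47.SR

variable {d : ℕ}

/-- coefficients of the letter of `c` -/
noncomputable def alf (X : CV d) (σ : ℝ) (w : ℂ → ℝ) (b u c : ℂ) : ℂ × ℂ :=
  (-((σ : ℂ) * ((w c : ℂ) * kr d b c u) * (Fb X b u).2 / (n2 (Fb X b u) : ℂ)),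
    (σ : ℂ) * ((w c : ℂ) * kr d b c u) * (Fb X b u).1 / (n2 (Fb X b u) : ℂ))

theorem ee_YY (X : CV d) (σ : ℝ) (s : Finset ℂ) (w : ℂ → ℝ) (F : ℂ → ℂ × ℂ) (b u : ℂ) :
    ee (Fb X b u) (Fb ((σ : ℂ) • YY d s w F) b u) =
      ∑ c ∈ s, ((alf X σ w b u c).1 * (F c).1 + (alf X σ w b u c).2 * (F c).2) := by
  rw [Fb_csmul, Fb_YY]
  obtain ⟨a, ha⟩ : ∃ a : ℂ × ℂ, a = Fb X b u := ⟨_, rfl⟩
  have h1 : wd a ((σ : ℂ) • ∑ c ∈ s, ((w c : ℂ) * kr d b c u) • F c) =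
      ∑ c ∈ s, (σ : ℂ) * ((w c : ℂ) * kr d b c u) * (a.1 * (F c).2 - a.2 * (F c).1) := by
    unfold wd
    simp only [Prod.smul_fst, Prod.smul_snd, Prod.fst_sum, Prod.snd_sum, smul_eq_mul, Finset.mul_sum]
    rw [← Finset.sum_sub_distrib]
    refine Finset.sum_congr rfl fun c _ => ?_
    ring
  unfold ee alf
  rw [← ha, h1, Finset.sum_div]
  refine Finset.sum_congr rfl fun c _ => ?_
  simp only
  ring

theorem ee_cut (hd : 1 ≤ d) {s : Finset ℂ} (hs : Sep d s) {w : ℂ → ℝ} (hw : Wgt d w) (X : CV d) {σ : ℝ} (hσ : 0 ≤ σ)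
    (F : ℂ → ℂ × ℂ) (hF : ∀ c, ‖(F c).1‖ ≤ 1 ∧ ‖(F c).2‖ ≤ 1) (b : ℂ) {u : ℂ} (hu : ‖u‖ ≤ 3)
    (hn : 0 < nm (Fb X b u)) {T : ℝ} (hT : 0 ≤ T) :
    ‖ee (Fb X b u) (Fb ((σ : ℂ) • YY d s w F) b u) - ∑ c ∈ s.filter (fun c => √d * sg b c ≤ T),
      ((alf X σ w b u c).1 * (F c).1 + (alf X σ w b u c).2 * (F c).2)‖ ≤
      σ * (2 * 10 ^ 15 * Real.exp (-(2 * T))) * (w b / nm (Fb X b u)) := by
  rw [ee_YY, ← Finset.sum_filter_add_sum_filter_not s (fun c => √d * sg b c ≤ T), add_sub_cancel_left]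
  obtain ⟨N, hN⟩ : ∃ N : ℝ, N = nm (Fb X b u) := ⟨_, rfl⟩
  rw [← hN] at hn ⊢
  have hterm : ∀ c : ℂ, ‖(alf X σ w b u c).1 * (F c).1 + (alf X σ w b u c).2 * (F c).2‖ ≤
      2 * σ / N * (w c * ‖kr d b c u‖) := by
    intro c
    obtain ⟨f1, f2⟩ := hF c
    have hwk : 0 ≤ w c * ‖kr d b c u‖ := mul_nonneg (hw.pos c).le (norm_nonneg _)
    have hn2 : ‖((n2 (Fb X b u) : ℝ) : ℂ)‖ = N ^ 2 := by
      rw [Complex.norm_real, n2_eq, ← hN, Real.norm_of_nonneg (by positivity)]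
    have a1 : ‖(alf X σ w b u c).1‖ ≤ σ / N * (w c * ‖kr d b c u‖) := by
      unfold alf
      simp only
      rw [norm_neg, norm_div, norm_mul, norm_mul, norm_mul, Complex.norm_real, Complex.norm_real,
        Real.norm_of_nonneg hσ, Real.norm_of_nonneg (hw.pos c).le, hn2, div_le_iff₀ (by positivity)]
      have h1 : ‖(Fb X b u).2‖ ≤ N := by rw [hN]; exact nm_snd _
      calc σ * (w c * ‖kr d b c u‖) * ‖(Fb X b u).2‖ ≤ σ * (w c * ‖kr d b c u‖) * N :=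
            mul_le_mul_of_nonneg_left h1 (mul_nonneg hσ hwk)
        _ = _ := by field_simp
    have a2 : ‖(alf X σ w b u c).2‖ ≤ σ / N * (w c * ‖kr d b c u‖) := by
      unfold alf
      simp only
      rw [norm_div, norm_mul, norm_mul, norm_mul, Complex.norm_real, Complex.norm_real,
        Real.norm_of_nonneg hσ, Real.norm_of_nonneg (hw.pos c).le, hn2, div_le_iff₀ (by positivity)]
      have h1 : ‖(Fb X b u).1‖ ≤ N := by rw [hN]; exact nm_fst _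
      calc σ * (w c * ‖kr d b c u‖) * ‖(Fb X b u).1‖ ≤ σ * (w c * ‖kr d b c u‖) * N :=
            mul_le_mul_of_nonneg_left h1 (mul_nonneg hσ hwk)
        _ = _ := by field_simp
    refine (norm_add_le _ _).trans ?_
    rw [norm_mul, norm_mul]
    have b1 : ‖(alf X σ w b u c).1‖ * ‖(F c).1‖ ≤ ‖(alf X σ w b u c).1‖ * 1 :=
      mul_le_mul_of_nonneg_left f1 (norm_nonneg _)
    have b2 : ‖(alf X σ w b u c).2‖ * ‖(F c).2‖ ≤ ‖(alf X σ w b u c).2‖ * 1 :=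
      mul_le_mul_of_nonneg_left f2 (norm_nonneg _)
    have e1 : 2 * σ / N * (w c * ‖kr d b c u‖) = σ / N * (w c * ‖kr d b c u‖) + σ / N * (w c * ‖kr d b c u‖) := by
      ring
    rw [e1]
    linarith
  refine (norm_sum_le _ _).trans ((Finset.sum_le_sum fun c _ => hterm c).trans ?_)
  rw [← Finset.mul_sum]
  refine (mul_le_mul_of_nonneg_left (kr_tail hd hs hw b hu hT) (by positivity)).trans (le_of_eq ?_)
  ring

theorem alf_own (hd : 1 ≤ d) (X : CV d) {σ : ℝ} (hσ : 0 < σ) {w : ℂ → ℝ} {b u : ℂ} (hw : 0 < w b)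
    (hn : 0 < nm (Fb X b u)) : σ * (w b / nm (Fb X b u)) / 2 ≤ ‖(alf X σ w b u b).1‖ ∨
      σ * (w b / nm (Fb X b u)) / 2 ≤ ‖(alf X σ w b u b).2‖ := by
  obtain ⟨N, hN⟩ : ∃ N : ℝ, N = nm (Fb X b u) := ⟨_, rfl⟩
  have hsq := nm_sq (Fb X b u)
  rw [← hN] at hn hsq ⊢
  have hn2 : ‖((n2 (Fb X b u) : ℝ) : ℂ)‖ = N ^ 2 := by
    rw [Complex.norm_real, n2_eq, ← hN, Real.norm_of_nonneg (by positivity)]
  have e1 : ‖(alf X σ w b u b).1‖ = σ * w b * ‖(Fb X b u).2‖ / N ^ 2 := by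
    unfold alf
    simp only
    rw [norm_neg, norm_div, norm_mul, norm_mul, norm_mul, Complex.norm_real, Complex.norm_real,
      Real.norm_of_nonneg hσ.le, Real.norm_of_nonneg hw.le, hn2, kr_own hd, norm_one, mul_one]
  have e2 : ‖(alf X σ w b u b).2‖ = σ * w b * ‖(Fb X b u).1‖ / N ^ 2 := by
    unfold alf
    simp only
    rw [norm_div, norm_mul, norm_mul, norm_mul, Complex.norm_real, Complex.norm_real,
      Real.norm_of_nonneg hσ.le, Real.norm_of_nonneg hw.le, hn2, kr_own hd, norm_one, mul_one]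
  rw [e1, e2]
  have key : ∀ r : ℝ, N / 2 ≤ r → σ * (w b / N) / 2 ≤ σ * w b * r / N ^ 2 := by
    intro r hr
    have h1 : σ * (w b / N) / 2 = σ * w b * (N / 2) / N ^ 2 := by
      field_simp
    rw [h1]
    apply div_le_div_of_nonneg_right _ (by positivity)
    exact mul_le_mul_of_nonneg_left hr (by positivity)
  by_cases h : N / 2 ≤ ‖(Fb X b u).2‖
  · exact Or.inl (key _ h)
  · right
    apply key
    rw [not_le] at h
    by_contra h3
    rw [not_le] at h3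
    nlinarith [norm_nonneg (Fb X b u).1, norm_nonneg (Fb X b u).2]

end Pool.Agent.H84.SRT
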