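import Pool.Agent.H84.SR2.Ch1

/-!
[H84 SR2 CH2]  SHARP RATE, piece 5: the induction hypothesis for the new map, the four cases.

Write `c = pt d b u` (old critical point), `c'` the new one (`Pr`), `x i = xx cX σ s w X c i`, `x' i = xx cX (be σ) s w (X+Y) c' i`,
`y i = ob X c i`, `y' i = ob (X+Y) c' i`. All orbit points are unit vectors (`isU_ob`, `amp1`, `amp2`).
* `chk_a`: `Act` at `j`. `xr` with `J = j` (`rs ≤ 3 rs/be`): `x' j ≤ 11/10 be x j ≤ x j / 2`, `DD (y' i) (y i) ≤ x i / 4 ≤ x j / 4`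
  for `i ≤ j` (`xx_mono`). `Stg.hyp`: `DD (y j) z ≥ de + x j`; `DD_tri`.
* `chk_b`: `IsJ c J`, `xr` with this `J`: `x' J ≤ 11/10 be x J`, `rh = de + 4 be x J`. `Avo` (with `Pr.val`, `Pr.chi'`) if
  `DD (y J) z ≤ 1/4`. If `DD (y J) z > 1/4`: `DD (y' J) z ≥ 1/4 - x J/4`, `x J ≤ 3 rs/be = 3 be`, everything is tiny (`bsm`).
* `chk_c`: by `chk_b` the point `y' J` is in `Gd de` (`x' J ≥ 0`), `Ctx.one` for `X + Y` (`amp2`):
  `x' (J+1) = x' J ‖al (X+Y) c' J‖ ≥ 9/10 be rs d^(e/2) > rs` (`Ctx.exp`: `10 ≤ be² d^(e/2) ≤ be d^(e/2)`).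
* `chk_d`: `J` first index with `x J > rs`, and `x J > 3 rs/be`; claim `x' J > rs`. `J = 0`: `x' 0 ≥ (100/101) be x 0`
  (`Pr.rat2`, `Ph _ _ 0 = 1`). `J = K + 1`: suppose `x' J ≤ rs`. `xr` for `K` (`x K ≤ rs`). `Ctx.rat` with `x = x K` (`xx_pos`),
  `y = y K`, `y' = y' K` (`Stg.hyp` at `K`: `Act` at `K`), `DD ≤ x K/4`, `‖al (X+Y) c' K‖ x K ≤ x' (K+1)/(9/10 be) ≤ 2 rs/be`:
  so `x J = x K ‖al X c K‖ ≤ 11/10 x K ‖al (X+Y) c' K‖ ≤ (11/9) rs/be < 3 rs/be`, contradiction.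
`xx_step` holds for every map (it is stated for `σ` arbitrary).
-/

set_option autoImplicit false

open Polynomial ComplexConjugate Filter Topology

namespace Pool.Agent.H84.SRT

open Pool.H70.SF Pool.Agent.H85.LD Pool.H91.SR Pool.Agent.H70.PL Pool.Agent.H47.SR

variable {d : ℕ} {A e CN σ : ℝ} {s : Finset ℂ} {w : ℂ → ℝ} {Xs X Y : CV d} {b u : ℂ} {c' : ℂ × ℂ}

/-- the numbers of one degree -/
private theorem c2_num (h : Stg A e CN σ s w Xs X) : 0 < be e d ∧ be e d ≤ 1 / 10 ^ 30 ∧ rs e d = be e d ^ 2 ∧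
    de e d = be e d ^ 4 ∧ 0 < rs e d ∧ rs e d ≤ 3 * rs e d / be e d ∧ 3 * rs e d / be e d = 3 * be e d := by
  have h0 := h.ctx.bpos
  have h1 := h.ctx.bsm
  have h2 : be e d ≤ 1 / 10 ^ 30 := by
    rw [le_div_iff₀ (by positivity)]
    linarith
  have h3 : 3 * rs e d / be e d = 3 * be e d := by
    unfold rs
    rw [div_eq_iff h0.ne']
    ring
  have h4 : 0 < rs e d := by
    unfold rs
    positivity
  refine ⟨h0, h2, rfl, rfl, h4, ?_, h3⟩
  rw [h3]
  unfold rs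
  nlinarith

private theorem c2_unit (h : Stg A e CN σ s w Xs X) (i : ℕ) : IsU (ob X (pt d b u) i) :=
  isU_ob h.ctx (amp1 h) (pt_unit d b u) i

private theorem c2_unit' (h : Stg A e CN σ s w Xs X) (hY : Amp s w (cY * σ) Y)
    (hp : Pr e σ s w X Y b u c') (i : ℕ) : IsU (ob (X + Y) c' i) :=
  isU_ob h.ctx (amp2 h hY) hp.unit i

theorem chk_a (h : Stg A e CN σ s w Xs X) (hY : Amp s w (cY * σ) Y) (hp : Pr e σ s w X Y b u c') {j : ℕ}
    (hj : Act e cX σ s w X (pt d b u) j) :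
    Gd Xs (de e d + xx cX (be e d * σ) s w (X + Y) c' j) (ob (X + Y) c' j) ∧
    (1 ≤ j → de e d + xx cX (be e d * σ) s w (X + Y) c' j ≤ DD d (ob (X + Y) c' j) (ob (X + Y) c' (j - pp j))) := by
  obtain ⟨n1, n2', n3, n4, n5, n6, n7⟩ := c2_num h
  have hJ : ∀ i < j, xx cX σ s w X (pt d b u) i ≤ rs e d := fun i hi => hj i hi.le
  have hJ3 : xx cX σ s w X (pt d b u) j ≤ 3 * rs e d / be e d := (hj j le_rfl).trans n6
  have hc := pt_unit d b u
  obtain ⟨g1, g2⟩ := h.hyp (pt d b u) hc hp.crit j hj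
  obtain ⟨x1, x2, x3⟩ := xr h hY hp hJ hJ3 (le_refl j)
  have xp : 0 < xx cX σ s w X (pt d b u) j := xx_pos h hc hp.crit hJ (le_refl j)
  have x4 : xx cX (be e d * σ) s w (X + Y) c' j ≤ xx cX σ s w X (pt d b u) j / 2 := by
    have : be e d * xx cX σ s w X (pt d b u) j ≤ 1 / 10 ^ 30 * xx cX σ s w X (pt d b u) j :=
      mul_le_mul_of_nonneg_right n2' xp.le
    linarith
  constructor
  · intro z hz hz0
    have a1 := g1 z hz hz0
    have a2 := DD_tri (d := d) (c2_unit h (b := b) (u := u) j) (c2_unit' h hY hp j) hz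
    rw [DD_comm (ob X (pt d b u) j) (ob (X + Y) c' j)] at a2
    linarith
  · intro h1
    have a1 := g2 h1
    have hi : j - pp j ≤ j := Nat.sub_le _ _
    obtain ⟨y1, y2, y3⟩ := xr h hY hp hJ hJ3 hi
    have ym := xx_mono h hc hp.crit hJ hi (le_refl j)
    have a2 := DD_tri (d := d) (c2_unit h (b := b) (u := u) j) (c2_unit' h hY hp j)
      (c2_unit h (b := b) (u := u) (j - pp j))
    have a3 := DD_tri (d := d) (c2_unit' h hY hp j) (c2_unit' h hY hp (j - pp j))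
      (c2_unit h (b := b) (u := u) (j - pp j))
    rw [DD_comm (ob X (pt d b u) j) (ob (X + Y) c' j)] at a2
    linarith

theorem chk_b (h : Stg A e CN σ s w Xs X) (hY : Amp s w (cY * σ) Y) (hA : Avo e σ s w Xs X Y)
    (hp : Pr e σ s w X Y b u c') {J : ℕ} (hJ : IsJ e σ s w X (pt d b u) J) :
    Gd Xs (de e d + xx cX (be e d * σ) s w (X + Y) c' J) (ob (X + Y) c' J) ∧
    (1 ≤ J → de e d + xx cX (be e d * σ) s w (X + Y) c' J ≤ DD d (ob (X + Y) c' J) (ob (X + Y) c' (J - pp J))) := by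
  obtain ⟨n1, n2', n3, n4, n5, n6, n7⟩ := c2_num h
  obtain ⟨j1, j2, j3⟩ := hJ
  have hc := pt_unit d b u
  obtain ⟨x1, x2, x3⟩ := xr h hY hp j1 j3 (le_refl J)
  have xp : 0 < xx cX σ s w X (pt d b u) J := xx_pos h hc hp.crit j1 (le_refl J)
  have x5 : 0 < be e d * xx cX σ s w X (pt d b u) J := mul_pos n1 xp
  have x4 : de e d + xx cX (be e d * σ) s w (X + Y) c' J ≤ rh e σ s w X (pt d b u) J := by
    unfold rh
    linarith
  obtain ⟨b1, b2⟩ := hA b hp.mem u hp.le hp.crit J ⟨j1, j2, j3⟩ c' hp.unit hp.val hp.chi'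
  constructor
  · intro z hz hz0
    by_cases hD : DD d (ob X (pt d b u) J) z ≤ 1 / 4
    · exact x4.trans (b1 z hz hz0 hD).le
    · push Not at hD
      have a2 := DD_tri (d := d) (c2_unit h (b := b) (u := u) J) (c2_unit' h hY hp J) hz
      rw [DD_comm (ob X (pt d b u) J) (ob (X + Y) c' J)] at a2
      rw [n7] at j3
      have e1 : xx cX σ s w X (pt d b u) J ≤ 1 / 100 := by
        refine j3.trans ?_
        have : (1 : ℝ) / 10 ^ 30 ≤ 1 / 1000 := by norm_num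
        linarith
      have e2 : be e d * xx cX σ s w X (pt d b u) J ≤ 1 * xx cX σ s w X (pt d b u) J := by
        refine mul_le_mul_of_nonneg_right ?_ xp.le
        refine n2'.trans ?_
        norm_num
      have e3 : de e d ≤ 1 / 100 := by
        rw [n4]
        have h0 : be e d ≤ 1 / 10 := by
          refine n2'.trans ?_
          norm_num
        calc be e d ^ 4 ≤ (1 / 10) ^ 4 := pow_le_pow_left₀ n1.le h0 4
          _ ≤ 1 / 100 := by norm_num
      linarith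
  · intro h1
    exact x4.trans (b2 h1).le

theorem chk_c (h : Stg A e CN σ s w Xs X) (hY : Amp s w (cY * σ) Y) (hA : Avo e σ s w Xs X Y)
    (hp : Pr e σ s w X Y b u c') {J : ℕ} (hJ : IsJ e σ s w X (pt d b u) J) :
    rs e d < xx cX (be e d * σ) s w (X + Y) c' (J + 1) := by
  obtain ⟨n1, n2', n3, n4, n5, n6, n7⟩ := c2_num h
  obtain ⟨g1, g2⟩ := chk_b h hY hA hp hJ
  obtain ⟨j1, j2, j3⟩ := hJ
  obtain ⟨x1, x2, x3⟩ := xr h hY hp j1 j3 (le_refl J)
  have hx : 9 / 10 * (be e d * rs e d) < xx cX (be e d * σ) s w (X + Y) c' J := by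
    have := mul_lt_mul_of_pos_left j2 n1
    linarith
  have hbr : 0 < be e d * rs e d := mul_pos n1 n5
  have hG : Gd Xs (de e d) (ob (X + Y) c' J) := by
    intro z hz hz0
    have := g1 z hz hz0
    linarith
  have ho := h.ctx.one (X + Y) (amp2 h hY) (ob (X + Y) c' J) (c2_unit' h hY hp J) hG
  have hx0 : 0 < xx cX (be e d * σ) s w (X + Y) c' J := by linarith
  have hE := h.ctx.exp
  rw [xx_step]
  have ho' : (d : ℝ) ^ (e / 2) ≤ ‖al (X + Y) c' J‖ := ho
  have hd0 : 0 ≤ (d : ℝ) ^ (e / 2) := Real.rpow_nonneg (Nat.cast_nonneg d) _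
  have s1 : 9 / 10 * (be e d * rs e d) * (d : ℝ) ^ (e / 2) ≤
      xx cX (be e d * σ) s w (X + Y) c' J * ‖al (X + Y) c' J‖ :=
    mul_le_mul hx.le ho' hd0 hx0.le
  refine lt_of_lt_of_le ?_ s1
  have s2 : be e d ^ 2 * (d : ℝ) ^ (e / 2) ≤ be e d * (d : ℝ) ^ (e / 2) := by
    refine mul_le_mul_of_nonneg_right ?_ hd0
    have : be e d ≤ 1 := n2'.trans (by norm_num)
    nlinarith
  have s3 : 9 / 10 * (be e d * rs e d) * (d : ℝ) ^ (e / 2) =
      9 / 10 * rs e d * (be e d * (d : ℝ) ^ (e / 2)) := by ring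
  rw [s3]
  have s4 : 10 ≤ be e d * (d : ℝ) ^ (e / 2) := hE.trans s2
  have s5 : 9 / 10 * rs e d * 10 ≤ 9 / 10 * rs e d * (be e d * (d : ℝ) ^ (e / 2)) :=
    mul_le_mul_of_nonneg_left s4 (by positivity)
  linarith

theorem chk_d (h : Stg A e CN σ s w Xs X) (hY : Amp s w (cY * σ) Y) (hp : Pr e σ s w X Y b u c') {J : ℕ}
    (hJ : ∀ i < J, xx cX σ s w X (pt d b u) i ≤ rs e d) (hJ3 : 3 * rs e d / be e d < xx cX σ s w X (pt d b u) J) :
    rs e d < xx cX (be e d * σ) s w (X + Y) c' J := by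
  obtain ⟨n1, n2', n3, n4, n5, n6, n7⟩ := c2_num h
  have hσ := h.spos
  cases J with
  | zero =>
    have e0 : xx cX σ s w X (pt d b u) 0 = cX * σ * √d * EE s w X (pt d b u) := by
      unfold xx Ph
      rw [Finset.prod_range_zero, mul_one]
    have e1 : xx cX (be e d * σ) s w (X + Y) c' 0 = cX * (be e d * σ) * √d * EE s w (X + Y) c' := by
      unfold xx Ph
      rw [Finset.prod_range_zero, mul_one]
    rw [e0] at hJ3
    rw [e1]
    have hc0 : 0 ≤ cX * σ * √d := by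
      unfold cX
      positivity
    have r1 := mul_le_mul_of_nonneg_left hp.rat2 hc0
    have r2 : 3 * rs e d / be e d < 101 / 100 * (cX * σ * √d * EE s w (X + Y) c') := by
      refine lt_of_lt_of_le hJ3 (r1.trans (le_of_eq ?_))
      ring
    rw [div_lt_iff₀ n1] at r2
    have r3 : cX * (be e d * σ) * √d * EE s w (X + Y) c' =
        cX * σ * √d * EE s w (X + Y) c' * be e d := by ring
    rw [r3]
    linarith
  | succ K =>
    by_contra hc
    push Not at hc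
    have hc1 := pt_unit d b u
    have hK : ∀ i < K, xx cX σ s w X (pt d b u) i ≤ rs e d := fun i hi => hJ i (by omega)
    have hK1 : xx cX σ s w X (pt d b u) K ≤ rs e d := hJ K (by omega)
    have hact : Act e cX σ s w X (pt d b u) K := fun i hi => hJ i (by omega)
    obtain ⟨x1, x2, x3⟩ := xr h hY hp hK (hK1.trans n6) (le_refl K)
    have xp : 0 < xx cX σ s w X (pt d b u) K := xx_pos h hc1 hp.crit hK (le_refl K)
    obtain ⟨g1, -⟩ := h.hyp (pt d b u) hc1 hp.crit K hact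
    have x3' : DD d (ob X (pt d b u) K) (ob (X + Y) c' K) ≤ xx cX σ s w X (pt d b u) K / 2 := by
      rw [DD_comm]
      linarith
    have hal0 : 0 ≤ ‖al (X + Y) c' K‖ := norm_nonneg _
    rw [xx_step] at hc
    have b1 : 9 / 10 * (be e d * xx cX σ s w X (pt d b u) K) * ‖al (X + Y) c' K‖ ≤ rs e d :=
      (mul_le_mul_of_nonneg_right x1 hal0).trans hc
    have b2 : ‖al (X + Y) c' K‖ * xx cX σ s w X (pt d b u) K * be e d ≤ 10 / 9 * rs e d := by
      have : 9 / 10 * (be e d * xx cX σ s w X (pt d b u) K) * ‖al (X + Y) c' K‖ =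
          9 / 10 * (‖al (X + Y) c' K‖ * xx cX σ s w X (pt d b u) K * be e d) := by ring
      linarith
    have b3 : ‖al (X + Y) c' K‖ * xx cX σ s w X (pt d b u) K ≤ 2 * rs e d / be e d := by
      rw [le_div_iff₀ n1]
      linarith
    have hr := h.ctx.rat X Y σ hσ (sle1 h) (amp1 h) hY (xx cX σ s w X (pt d b u) K)
      (ob X (pt d b u) K) (ob (X + Y) c' K) xp hK1 (c2_unit h K) (c2_unit' h hY hp K) g1 x3' b3
    have hr' : ‖al X (pt d b u) K‖ ≤ 11 / 10 * ‖al (X + Y) c' K‖ := hr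
    rw [xx_step] at hJ3
    have b4 := mul_le_mul_of_nonneg_left hr' xp.le
    have b5 : 3 * rs e d / be e d <
        11 / 10 * (‖al (X + Y) c' K‖ * xx cX σ s w X (pt d b u) K) := by
      refine lt_of_lt_of_le hJ3 (b4.trans (le_of_eq ?_))
      ring
    rw [div_lt_iff₀ n1] at b5
    linarith

end Pool.Agent.H84.SRT
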