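import Pool.Agent.H84.SR2.Kon

/-!
[H84 SR2 CTX]  SHARP RATE, piece 5: the explicit constants of the stages and everything that is used for one degree.

`cY` amplitude of the perturbations of one stage (relative to `σ`), `cX` the factor in `xx`, `cS` the first `σ` is
`cS * hh d`, `c1` bound of the total perturbation, `TT` the truncation radius.

Proof of `ctx_ev`: take `CN` from `hcnt c1`, combine the eventual statements (`Filter.eventually_and`, `filter_upwards`;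
first `intro e he he4`). The numerical fields: `bsm`: `be_LL` with `k = 0`; `exp`: `pow_ev` with `n = 2`, `k = 0`,
`a = e/2` (`2 e/(2000 mm e) < e/2` as `mm e ≥ 1`), up to the order of the factors; `near`: `k1 * tt ≥ d^(-e/100) d^(-1/2+e)`
(`qn_low`), `hh d = d^(-1/2)`, so it follows from `2 c1 ≤ d^(99e/100)` eventually, the same for `near2`; `tail`: `exp (-(40 log d)) = d^(-40)` and
`10^16 * d^(-40) ≤ be^4` (`pow_ev` with `a = 40`); `lll`: `TT d = 20 LL d`, `2 * TT d + 1 ≤ 41 LL d`, `CN LL + 2 ≤ 3 CN LL`, so the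
left side is at most `C * (LL^2 * be)^2` with an absolute `C` (depending on `CN`), use `be_LL` with `k = 2` and the
constant `√C + 1`.
-/

set_option autoImplicit false

open Polynomial ComplexConjugate Filter Topology

namespace Pool.Agent.H84.SRT

open Pool.H70.SF Pool.Agent.H85.LD Pool.H91.SR Pool.Agent.H70.PL Pool.Agent.H47.SR

noncomputable def cY : ℝ := 10 ^ 10
noncomputable def cX : ℝ := 8 * 10 ^ 11
noncomputable def cS : ℝ := 10 ^ 7
noncomputable def c1 : ℝ := 10 ^ 18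
/-- radius of truncation -/
noncomputable def TT (d : ℕ) : ℝ := 20 * LL d

/-- everything that is used in one stage -/
structure Ctx (A e CN : ℝ) (d : ℕ) (s : Finset ℂ) (w : ℂ → ℝ) (Xs : CV d) : Prop where
  d1 : 1 ≤ d
  e0 : 0 < e
  e4 : e ≤ 1 / 4
  wor : Wor A e d s w Xs
  CN1 : 1 ≤ CN
  cnt : CntB c1 CN s w Xs
  cvd : CvdB c1 cY e s w Xs
  one : OneB c1 e s w Xs
  rat : RatB c1 cY e s w Xs
  two : TwoB c1 cY 1 e s w Xs
  L1 : 1 ≤ LL d
  bpos : 0 < be e d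
  bsm : 10 ^ 30 * be e d ≤ 1
  exp : 10 ≤ be e d ^ 2 * (d : ℝ) ^ (e / 2)
  kt : 0 < k1 A e d * tt e d
  near : 2 * (c1 * hh d) ≤ k1 A e d * tt e d
  near2 : 10 ^ 30 * hh d ≤ k1 A e d * tt e d
  h1 : c1 * hh d ≤ 1
  tail : 10 ^ 16 * Real.exp (-(2 * TT d)) ≤ be e d ^ 4
  lll : 4 * ((CN * LL d) * (CN * LL d + 2) * (16 * (2 * 10 ^ 18 * be e d) ^ 2)) * (65 * (2 * TT d + 1) ^ 2) ≤ 1

private theorem ctx_lll {CN L b : ℝ} (hCN : 1 ≤ CN) (hL : 1 ≤ L) (hb : 0 < b)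
    (h : 10 ^ 22 * CN * L ^ 2 * b ≤ 1) :
    4 * ((CN * L) * (CN * L + 2) * (16 * (2 * 10 ^ 18 * b) ^ 2)) * (65 * (2 * (20 * L) + 1) ^ 2) ≤ 1 := by
  have h1 : CN * L + 2 ≤ 3 * (CN * L) := by nlinarith
  have h2 : 2 * (20 * L) + 1 ≤ 41 * L := by linarith
  have hCL : 0 < CN * L := by positivity
  have h3 : 4 * ((CN * L) * (CN * L + 2) * (16 * (2 * 10 ^ 18 * b) ^ 2)) * (65 * (2 * (20 * L) + 1) ^ 2)
      ≤ 4 * ((CN * L) * (3 * (CN * L)) * (16 * (2 * 10 ^ 18 * b) ^ 2)) * (65 * (41 * L) ^ 2) := by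
    gcongr
  have h4 : 0 ≤ 10 ^ 22 * CN * L ^ 2 * b := by positivity
  have h5 : (10 ^ 22 * CN * L ^ 2 * b) ^ 2 ≤ 1 := pow_le_one₀ h4 h
  have h6 : 0 ≤ (CN * L ^ 2 * b) ^ 2 := sq_nonneg _
  have h7 : 4 * ((CN * L) * (3 * (CN * L)) * (16 * (2 * 10 ^ 18 * b) ^ 2)) * (65 * (41 * L) ^ 2)
      = (83915520 * 10 ^ 36) * (CN * L ^ 2 * b) ^ 2 := by ring
  have h8 : (10 ^ 22 * CN * L ^ 2 * b) ^ 2 = (10 ^ 8 * 10 ^ 36) * (CN * L ^ 2 * b) ^ 2 := by ring
  rw [h8] at h5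
  rw [h7] at h3
  refine h3.trans (le_trans ?_ h5)
  apply mul_le_mul_of_nonneg_right _ h6
  norm_num

theorem ctx_ev {A : ℝ} (hA : 1 ≤ A) (hcnt : CntStmt A) (hcvd : CvdStmt A) (hone : OneStmt A) (hrat : RatStmt A)
    (htwo : TwoStmt A) : ∃ CN : ℝ, Lg A fun e d s w Xs => Ctx A e CN d s w Xs := by
  have hc1 : (1 : ℝ) ≤ c1 := by
    unfold c1
    norm_num
  have hcY : (1 : ℝ) ≤ cY := by
    unfold cY
    norm_num
  obtain ⟨CN, hCN, hcN⟩ := hcnt c1 hc1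
  refine ⟨CN, fun e he he4 => ?_⟩
  have hm : (1 : ℝ) ≤ (mm e : ℝ) := by exact_mod_cast mm_pos he
  have hfr : e / (2000 * (mm e : ℝ)) ≤ e / 2000 := by
    apply div_le_div_of_nonneg_left he.le (by norm_num)
    linarith
  have ha1 : ((2 : ℕ) : ℝ) * (e / (2000 * (mm e : ℝ))) < e / 2 := by
    push_cast
    linarith
  have ha2 : ((4 : ℕ) : ℝ) * (e / (2000 * (mm e : ℝ))) < 40 := by
    push_cast
    linarith
  filter_upwards [hcN e he he4, hcvd c1 cY hc1 hcY e he he4, hone c1 hc1 e he he4,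
    hrat c1 cY hc1 hcY e he he4, htwo c1 cY 1 hc1 hcY le_rfl e he he4, LL_one,
    be_LL he (10 ^ 30) 0, be_LL he (10 ^ 22 * CN) 2, pow_ev he 10 0 2 ha1,
    pow_ev he (10 ^ 16) 0 4 ha2, qn_low hA he he4,
    LL_ev (2 * c1) 0 (a := 99 * e / 100) (by positivity), eventually_ge_atTop 1,
    LL_ev (10 ^ 30) 0 (a := 99 * e / 100) (by positivity)] with d
    g1 g2 g3 g4 g5 g6 g7 g8 g9 g10 g11 g12 g13 g14 s w Xs hW
  have hd1 : (1 : ℝ) ≤ (d : ℝ) := by exact_mod_cast g13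
  have hd0 : (0 : ℝ) < (d : ℝ) := by linarith
  have hb := be_pos e g13
  rw [pow_zero, mul_one] at g7 g9 g10 g12 g14
  have hqn : 0 < qn A e d := lt_of_lt_of_le (Real.rpow_pos_of_pos hd0 _) g11.1
  have htt : 0 < tt e d := Real.rpow_pos_of_pos hd0 _
  have hk1 : (d : ℝ) ^ (-(e / 100)) ≤ k1 A e d := by
    unfold k1
    have h1 : (d : ℝ) ^ (-(e / 100)) = ((d : ℝ) ^ (-(e / 200))) ^ 2 := by
      rw [← Real.rpow_natCast, ← Real.rpow_mul hd0.le]
      congr 1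
      push_cast
      ring
    rw [h1]
    exact pow_le_pow_left₀ (Real.rpow_pos_of_pos hd0 _).le g11.1 2
  have hhd : hh d = (d : ℝ) ^ (-(1 / 2 : ℝ)) := by
    unfold hh
    rw [Real.sqrt_eq_rpow, Real.rpow_neg hd0.le, one_div]
  have hhp : 0 < hh d := by
    rw [hhd]
    exact Real.rpow_pos_of_pos hd0 _
  have hL0 : TT d = 20 * LL d := rfl
  refine ⟨g13, he, he4, hW, hCN, g1 s w Xs hW, g2 s w Xs hW, g3 s w Xs hW, g4 s w Xs hW,
    g5 s w Xs hW, g6, hb, g7, ?_, ?_, ?_, ?_, ?_, ?_, ?_⟩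
  · rw [mul_comm]
    exact g9
  · unfold k1
    positivity
  · calc 2 * (c1 * hh d) = (2 * c1) * hh d := by ring
      _ ≤ (d : ℝ) ^ (99 * e / 100) * hh d := mul_le_mul_of_nonneg_right g12 hhp.le
      _ = (d : ℝ) ^ (-(e / 100)) * tt e d := by
          rw [hhd]
          unfold tt
          rw [← Real.rpow_add hd0, ← Real.rpow_add hd0]
          congr 1
          ring
      _ ≤ k1 A e d * tt e d := mul_le_mul_of_nonneg_right hk1 htt.le
  · calc 10 ^ 30 * hh d ≤ (d : ℝ) ^ (99 * e / 100) * hh d := mul_le_mul_of_nonneg_right g14 hhp.le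
      _ = (d : ℝ) ^ (-(e / 100)) * tt e d := by
          rw [hhd]
          unfold tt
          rw [← Real.rpow_add hd0, ← Real.rpow_add hd0]
          congr 1
          ring
      _ ≤ k1 A e d * tt e d := mul_le_mul_of_nonneg_right hk1 htt.le
  · have h1 : 2 * c1 ≤ (d : ℝ) ^ (1 / 2 : ℝ) := by
      refine g12.trans (Real.rpow_le_rpow_of_exponent_le hd1 ?_)
      linarith
    have h2 : c1 ≤ (d : ℝ) ^ (1 / 2 : ℝ) := by linarith
    calc c1 * hh d ≤ (d : ℝ) ^ (1 / 2 : ℝ) * hh d := mul_le_mul_of_nonneg_right h2 hhp.le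
      _ = 1 := by
        rw [hhd, ← Real.rpow_add hd0]
        norm_num
  · have h1 : Real.exp (-(2 * TT d)) = ((d : ℝ) ^ (40 : ℝ))⁻¹ := by
      rw [hL0]
      unfold LL
      rw [← Real.rpow_neg hd0.le, Real.rpow_def_of_pos hd0]
      congr 1
      ring
    have h2 : 0 < (d : ℝ) ^ (40 : ℝ) := Real.rpow_pos_of_pos hd0 _
    rw [h1, ← div_eq_mul_inv, div_le_iff₀ h2, mul_comm]
    exact g10
  · rw [hL0]
    exact ctx_lll hCN g6 hb g8

end Pool.Agent.H84.SRT
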