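import Pool.Agent.H84.SR2.Ch2

/-!
[H84 SR2 STP]  SHARP RATE, piece 5: one stage.

* `chk`: let `c'` be a unit critical point of `X + Y`, `j` active. `exists_pt`: `c' = z • pt d b u'`, `‖u'‖ ≤ 1/3`. By the phase
  lemmas (`xx_phase`, `ob_phase`, `Gd_phase`, `DD_phase`, `JJ_phase`) it is enough to treat `pt d b u'` (the orbit points
  `ob (z • c) j`, `ob (z • c) (j - pp j)` are `ζ • ob c j`, `ζ' • ob c (j - pp j)`). `pre` gives `u`. If `Act` holds for the old point
  at `j`: `chk_a`. Otherwise let `J ≤ j` be the first index with `x J > rs` (`Nat.find`). If `x J ≤ 3 rs/be`, `IsJ`; `j = J`: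
  `chk_b`; `j ≥ J + 1`: `chk_c` contradicts `Act` of the new map at `J + 1`. If `x J > 3 rs/be`: `chk_d` contradicts `Act` at `J`.
* `step`: `avo` and `chk`.
-/

set_option autoImplicit false

open Polynomial ComplexConjugate Filter Topology

namespace Pool.Agent.H84.SRT

open Pool.H70.SF Pool.Agent.H85.LD Pool.H91.SR Pool.Agent.H70.PL Pool.Agent.H47.SR

variable {d : ℕ} {A e CN σ : ℝ} {s : Finset ℂ} {w : ℂ → ℝ} {Xs X Y : CV d}

theorem chk (h : Stg A e CN σ s w Xs X) (hY : Amp s w (cY * σ) Y) (hA : Avo e σ s w Xs X Y) :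
    HH e cX (be e d * σ) s w Xs (X + Y) := by
  intro c hc hc0 j hj
  obtain ⟨b, hb, u', z, hu', hz, rfl⟩ := exists_pt h.ctx.d1 h.ctx.wor.cov hc
  have hc0' : JJ (X + Y) (pt d b u') = 0 := (JJ_phase _ hz _).1 hc0
  have hj' : Act e cX (be e d * σ) s w (X + Y) (pt d b u') j := by
    intro i hi
    have := hj i hi
    rwa [xx_phase _ _ _ _ _ hz] at this
  have key : Gd Xs (de e d + xx cX (be e d * σ) s w (X + Y) (pt d b u') j) (ob (X + Y) (pt d b u') j) ∧
      (1 ≤ j → de e d + xx cX (be e d * σ) s w (X + Y) (pt d b u') j ≤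
        DD d (ob (X + Y) (pt d b u') j) (ob (X + Y) (pt d b u') (j - pp j))) := by
    obtain ⟨u, hp⟩ := pre h hY hb hu' hc0'
    by_cases hact : Act e cX σ s w X (pt d b u) j
    · exact chk_a h hY hp hact
    · unfold Act at hact
      push Not at hact
      obtain ⟨i0, hi0, hi1⟩ := hact
      classical
      have hex : ∃ i, rs e d < xx cX σ s w X (pt d b u) i := ⟨i0, hi1⟩
      obtain ⟨J, hJ⟩ : ∃ J, J = Nat.find hex := ⟨_, rfl⟩
      have hJ1 : rs e d < xx cX σ s w X (pt d b u) J := by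
        rw [hJ]
        exact Nat.find_spec hex
      have hJ2 : ∀ i < J, xx cX σ s w X (pt d b u) i ≤ rs e d := by
        intro i hi
        rw [hJ] at hi
        exact not_lt.1 (Nat.find_min hex hi)
      have hJj : J ≤ j := by
        rw [hJ]
        exact (Nat.find_min' hex hi1).trans hi0
      by_cases h3 : xx cX σ s w X (pt d b u) J ≤ 3 * rs e d / be e d
      · have hIs : IsJ e σ s w X (pt d b u) J := ⟨hJ2, hJ1, h3⟩
        rcases hJj.lt_or_eq with hlt | heq
        · exact absurd (hj' (J + 1) hlt) (not_le.2 (chk_c h hY hA hp hIs))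
        · rw [← heq]
          exact chk_b h hY hA hp hIs
      · exact absurd (hj' J hJj) (not_le.2 (chk_d h hY hp hJ2 (not_le.1 h3)))
  rw [xx_phase _ _ _ _ _ hz]
  obtain ⟨ζ, h1, h2⟩ := ob_phase (X + Y) hz (pt d b u') j
  obtain ⟨ζ', h1', h2'⟩ := ob_phase (X + Y) hz (pt d b u') (j - pp j)
  rw [h2, h2']
  refine ⟨(Gd_phase Xs _ h1 _).2 key.1, fun h0 => ?_⟩
  rw [DD_phase h1 h1']
  exact key.2 h0

theorem step (h : Stg A e CN σ s w Xs X) : ∃ Y : CV d, Amp s w (cY * σ) Y ∧ HH e cX (be e d * σ) s w Xs (X + Y) := by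
  obtain ⟨Y, hY, hA⟩ := avo h
  exact ⟨Y, hY, chk h hY hA⟩

end Pool.Agent.H84.SRT
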