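import Pool.Agent.H84.SR2.Ge2
import Pool.Agent.H84.SR2.Ker

/-!
[H84 SR2 TGT]  SHARP RATE, piece 5: one stage, growth of the derivatives, TWO for critical orbits.

`Stg`: the data of one stage. `D0 = xx 0 / 8` is the bound of the displacement of the critical value.
`L J` (hypothesis `hJ`): all `xx i`, `i < J`, are at most `rs`.
* `amp1`, `amp2`: `Amp_add`, `Amp_mono`; `c1/2 + cY * cS ≤ c1`; `cS ≤ c1`.
* `xx_pos`: all factors are positive (`EE_one`, `Ph_pos`). `Ph_nn`: product of norms.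
* `al_big`: `Act` at `j`, `HH` gives `Gd (de + xx) ⊆ Gd de`, then `one`.
* `Ph_step`: `Ph X c (j+1) = Ph X c j * ‖al X c j‖` (`Finset.prod_range_succ`). `Ph_mono`: factors `≥ d^(e/2) ≥ 1`.
  `Ph_jump`: for `i < J` one factor `d^(e/2)`, and `10 ≤ be² d^(e/2)`.
* `sig_le`: `σ √d ≤ D0` (`cX/8 = 10^11`, `EE_one`).
* `two1`, `two2`: `Ctx.two` with `D0`; the hypothesis `Ph X c J * D0 ≤ be`: `Ph X c J * D0 = xx J / 8 ≤ 3 rs/(8 be) ≤ be`
  (`rs = be²`). `2 * Ph X c i * D0 = xx i / 4`.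
-/

set_option autoImplicit false

open Polynomial ComplexConjugate Filter Topology

namespace Pool.Agent.H84.SRT

open Pool.H70.SF Pool.Agent.H85.LD Pool.H91.SR Pool.Agent.H70.PL Pool.Agent.H47.SR

variable {d : ℕ}

/-- bound of the displacement of the critical value -/
noncomputable def D0 (σ : ℝ) (s : Finset ℂ) (w : ℂ → ℝ) (X : CV d) (c : ℂ × ℂ) : ℝ :=
  cX / 8 * σ * √d * EE s w X c

/-- the data of one stage -/
structure Stg (A e CN σ : ℝ) (s : Finset ℂ) (w : ℂ → ℝ) (Xs X : CV d) : Prop where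
  ctx : Ctx A e CN d s w Xs
  spos : 0 < σ
  sle : σ ≤ cS * hh d
  amp : Amp s w (c1 / 2 * hh d) (X - Xs)
  hyp : HH e cX σ s w Xs X

variable {A e CN σ : ℝ} {s : Finset ℂ} {w : ℂ → ℝ} {Xs X : CV d}

theorem hh_pos (hd : 1 ≤ d) : 0 < hh d := by
  unfold hh
  have : (0 : ℝ) < √d := Real.sqrt_pos.2 (by exact_mod_cast hd)
  positivity

theorem amp1 (h : Stg A e CN σ s w Xs X) : Amp s w (c1 * hh d) (X - Xs) := by
  have hh0 := hh_pos h.ctx.d1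
  refine Amp_mono h.ctx.wor.wgt.pos ?_ h.amp
  unfold c1
  nlinarith

theorem sle1 (h : Stg A e CN σ s w Xs X) : σ ≤ c1 * hh d := by
  have hh0 := hh_pos h.ctx.d1
  refine h.sle.trans ?_
  unfold cS c1
  nlinarith

theorem amp2 (h : Stg A e CN σ s w Xs X) {Y : CV d} (hY : Amp s w (cY * σ) Y) :
    Amp s w (c1 * hh d) (X + Y - Xs) := by
  have hh0 := hh_pos h.ctx.d1
  have h1 := Amp_add h.amp hY
  have e1 : X - Xs + Y = X + Y - Xs := by abel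
  rw [e1] at h1
  refine Amp_mono h.ctx.wor.wgt.pos ?_ h1
  have h2 := h.sle
  unfold cS at h2
  unfold c1 cY
  nlinarith

theorem Ph_nn (X : CV d) (c : ℂ × ℂ) (j : ℕ) : 0 ≤ Ph X c j := by
  unfold Ph
  exact Finset.prod_nonneg fun _ _ => norm_nonneg _

theorem Ph_step (X : CV d) (c : ℂ × ℂ) (j : ℕ) : Ph X c (j + 1) = Ph X c j * ‖al X c j‖ := by
  unfold Ph
  rw [Finset.prod_range_succ]

theorem xx_step (σ : ℝ) (s : Finset ℂ) (w : ℂ → ℝ) (X : CV d) (c : ℂ × ℂ) (j : ℕ) :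
    xx cX σ s w X c (j + 1) = xx cX σ s w X c j * ‖al X c j‖ := by
  unfold xx
  rw [Ph_step]
  ring

theorem EE_pos (h : Stg A e CN σ s w Xs X) {c : ℂ × ℂ} (hc : IsU c) : 0 < EE s w X c := by
  have h1 := EE_one h.ctx (amp1 h) hc
  by_contra h2
  rw [not_lt] at h2
  linarith

theorem D0_xx (X : CV d) (c : ℂ × ℂ) (i : ℕ) : Ph X c i * D0 σ s w X c = xx cX σ s w X c i / 8 := by
  unfold D0 xx
  ring

theorem sig_le (h : Stg A e CN σ s w Xs X) {c : ℂ × ℂ} (hc : IsU c) : σ * √d ≤ 1 * D0 σ s w X c := by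
  have h1 := EE_one h.ctx (amp1 h) hc
  have h2 : 0 ≤ σ * √d := mul_nonneg h.spos.le (Real.sqrt_nonneg _)
  unfold D0 cX
  have h3 : 8 * 10 ^ 11 / 8 * σ * √d * EE s w X c = 10 ^ 4 * ((10 ^ 7 * EE s w X c) * (σ * √d)) := by ring
  rw [one_mul, h3]
  have h4 : 1 * (σ * √d) ≤ (10 ^ 7 * EE s w X c) * (σ * √d) := mul_le_mul_of_nonneg_right h1 h2
  linarith

/-- expansion at active points -/
theorem al_big (h : Stg A e CN σ s w Xs X) {c : ℂ × ℂ} (hc : IsU c) (hc0 : JJ X c = 0) {j : ℕ}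
    (hj : Act e cX σ s w X c j) : (d : ℝ) ^ (e / 2) ≤ ‖al X c j‖ ∧ 10 ≤ be e d ^ 2 * ‖al X c j‖ ∧ 1 ≤ ‖al X c j‖ := by
  obtain ⟨h1, -⟩ := h.hyp c hc hc0 j hj
  have hx : 0 ≤ xx cX σ s w X c j := by
    unfold xx cX
    have h2 := EE_pos h hc
    have h3 := Ph_nn X c j
    have h4 := h.spos
    positivity
  have h2 : Gd Xs (de e d) (ob X c j) := fun z hz hz0 => by
    have := h1 z hz hz0
    linarith
  have h3 : (d : ℝ) ^ (e / 2) ≤ ‖al X c j‖ := h.ctx.one X (amp1 h) _ (isU_ob h.ctx (amp1 h) hc j) h2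
  have h4 := h.ctx.exp
  have hb := h.ctx.bpos
  have h5 : be e d ^ 2 * (d : ℝ) ^ (e / 2) ≤ be e d ^ 2 * ‖al X c j‖ :=
    mul_le_mul_of_nonneg_left h3 (by positivity)
  have h6 : be e d ≤ 1 := by
    have := h.ctx.bsm
    nlinarith
  have h7 : be e d ^ 2 ≤ 1 := pow_le_one₀ hb.le h6
  refine ⟨h3, by linarith, ?_⟩
  have h8 : be e d ^ 2 * ‖al X c j‖ ≤ 1 * ‖al X c j‖ := mul_le_mul_of_nonneg_right h7 (norm_nonneg _)
  linarith

theorem act_of {c : ℂ × ℂ} {J : ℕ} (hJ : ∀ i < J, xx cX σ s w X c i ≤ rs e d) {l : ℕ} (hl : l < J) :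
    Act e cX σ s w X c l := fun i hi => hJ i (by omega)

theorem Ph_pos (h : Stg A e CN σ s w Xs X) {c : ℂ × ℂ} (hc : IsU c) (hc0 : JJ X c = 0) {J : ℕ}
    (hJ : ∀ i < J, xx cX σ s w X c i ≤ rs e d) {i : ℕ} (hi : i ≤ J) : 0 < Ph X c i := by
  induction i with
  | zero =>
    unfold Ph
    simp
  | succ i ih =>
    rw [Ph_step]
    have h1 := (al_big h hc hc0 (act_of hJ (show i < J by omega))).2.2
    exact mul_pos (ih (by omega)) (by linarith)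

theorem Ph_mono (h : Stg A e CN σ s w Xs X) {c : ℂ × ℂ} (hc : IsU c) (hc0 : JJ X c = 0) {J : ℕ}
    (hJ : ∀ i < J, xx cX σ s w X c i ≤ rs e d) {i j : ℕ} (hij : i ≤ j) (hj : j ≤ J) : Ph X c i ≤ Ph X c j := by
  induction j, hij using Nat.le_induction with
  | base => exact le_rfl
  | succ j hij' ih =>
    rw [Ph_step]
    have h1 := (al_big h hc hc0 (act_of hJ (show j < J by omega))).2.2
    have h2 := ih (by omega)
    have h3 := Ph_nn X c j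
    calc Ph X c i ≤ Ph X c j * 1 := by linarith
      _ ≤ Ph X c j * ‖al X c j‖ := mul_le_mul_of_nonneg_left h1 h3

theorem Ph_jump (h : Stg A e CN σ s w Xs X) {c : ℂ × ℂ} (hc : IsU c) (hc0 : JJ X c = 0) {J : ℕ}
    (hJ : ∀ i < J, xx cX σ s w X c i ≤ rs e d) {i j : ℕ} (hij : i < j) (hj : j ≤ J) :
    10 * Ph X c i ≤ be e d ^ 2 * Ph X c j := by
  have h1 := (al_big h hc hc0 (act_of hJ (show i < J by omega))).2.1
  have h2 := Ph_mono h hc hc0 hJ (show i + 1 ≤ j by omega) hj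
  rw [Ph_step] at h2
  have h3 := Ph_nn X c i
  have h4 : 0 ≤ be e d ^ 2 := sq_nonneg _
  calc 10 * Ph X c i ≤ be e d ^ 2 * ‖al X c i‖ * Ph X c i := mul_le_mul_of_nonneg_right h1 h3
    _ = be e d ^ 2 * (Ph X c i * ‖al X c i‖) := by ring
    _ ≤ be e d ^ 2 * Ph X c j := mul_le_mul_of_nonneg_left h2 h4

theorem xx_mono (h : Stg A e CN σ s w Xs X) {c : ℂ × ℂ} (hc : IsU c) (hc0 : JJ X c = 0) {J : ℕ}
    (hJ : ∀ i < J, xx cX σ s w X c i ≤ rs e d) {i j : ℕ} (hij : i ≤ j) (hj : j ≤ J) :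
    xx cX σ s w X c i ≤ xx cX σ s w X c j := by
  unfold xx
  refine mul_le_mul_of_nonneg_left (Ph_mono h hc hc0 hJ hij hj) ?_
  unfold cX
  have h2 := EE_pos h hc
  have h4 := h.spos
  positivity

theorem xx_pos (h : Stg A e CN σ s w Xs X) {c : ℂ × ℂ} (hc : IsU c) (hc0 : JJ X c = 0) {J : ℕ}
    (hJ : ∀ i < J, xx cX σ s w X c i ≤ rs e d) {i : ℕ} (hi : i ≤ J) : 0 < xx cX σ s w X c i := by
  unfold xx cX
  have h2 := EE_pos h hc
  have h3 := Ph_pos h hc hc0 hJ hi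
  have h4 := h.spos
  have h5 : (0 : ℝ) < √d := Real.sqrt_pos.2 (by exact_mod_cast h.ctx.d1)
  positivity

/-- TWO, one perturbed orbit -/
private theorem tg_two (h : Stg A e CN σ s w Xs X) {c : ℂ × ℂ} (hc : IsU c) (hc0 : JJ X c = 0) {J : ℕ}
    (hJ : ∀ i < J, xx cX σ s w X c i ≤ rs e d) (hJ3 : xx cX σ s w X c J ≤ 3 * rs e d / be e d) :
    (∀ l < J, Gd Xs (de e d) (ob X c l)) ∧ Ph X c J * D0 σ s w X c ≤ be e d := by
  constructor
  · intro l hl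
    obtain ⟨h1, -⟩ := h.hyp c hc hc0 l (act_of hJ hl)
    have hx := xx_pos h hc hc0 hJ hl.le
    intro z hz hz0
    have := h1 z hz hz0
    linarith
  · rw [D0_xx]
    have hb := h.ctx.bpos
    have h1 : 3 * rs e d / be e d = 3 * be e d := by
      unfold rs
      field_simp
    rw [h1] at hJ3
    linarith

theorem two1 (h : Stg A e CN σ s w Xs X) {c : ℂ × ℂ} (hc : IsU c) (hc0 : JJ X c = 0) {J : ℕ}
    (hJ : ∀ i < J, xx cX σ s w X c i ≤ rs e d) (hJ3 : xx cX σ s w X c J ≤ 3 * rs e d / be e d) {Y : CV d}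
    (hY : Amp s w (cY * σ) Y) {c' : ℂ × ℂ} (hc' : IsU c') (hD : DD d (ob (X + Y) c' 0) (ob X c 0) ≤ D0 σ s w X c)
    {i : ℕ} (hi : i ≤ J) : DD d (ob (X + Y) c' i) (ob X c i) ≤ xx cX σ s w X c i / 4 ∧
      Ph (X + Y) c' i ≤ (1 + be e d) * Ph X c i ∧ Ph X c i ≤ (1 + be e d) * Ph (X + Y) c' i := by
  obtain ⟨h1, h2⟩ := tg_two h hc hc0 hJ hJ3
  obtain ⟨h3, -⟩ := h.ctx.two X σ (D0 σ s w X c) c J h.spos (sle1 h) (amp1 h) hc h1 (sig_le h hc) h2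
  obtain ⟨h4, h5, h6⟩ := h3 Y c' hY hc' hD i hi
  refine ⟨?_, h5, h6⟩
  have h7 := D0_xx (σ := σ) (s := s) (w := w) X c i
  have h8 : 2 * Ph X c i * D0 σ s w X c = 2 * (Ph X c i * D0 σ s w X c) := by ring
  rw [h8, h7] at h4
  linarith

/-- TWO, two perturbed orbits -/
theorem two2 (h : Stg A e CN σ s w Xs X) {c : ℂ × ℂ} (hc : IsU c) (hc0 : JJ X c = 0) {J : ℕ}
    (hJ : ∀ i < J, xx cX σ s w X c i ≤ rs e d) (hJ3 : xx cX σ s w X c J ≤ 3 * rs e d / be e d) {Y1 Y2 : CV d}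
    (hY1 : Amp s w (cY * σ) Y1) (hY2 : Amp s w (cY * σ) Y2) {a1 a2 : ℂ × ℂ} (h1 : IsU a1) (h2 : IsU a2)
    (hD1 : DD d (ob (X + Y1) a1 0) (ob X c 0) ≤ D0 σ s w X c) (hD2 : DD d (ob (X + Y2) a2 0) (ob X c 0) ≤ D0 σ s w X c)
    {i : ℕ} (hi : i ≤ J) :
    |DD d (ob (X + Y1) a1 i) (ob (X + Y2) a2 i) - Ph X c i * DD d (ob (X + Y1) a1 0) (ob (X + Y2) a2 0)| ≤
      be e d ^ 2 * Ph X c i * (DD d (ob (X + Y1) a1 0) (ob (X + Y2) a2 0) + σ * √d) := by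
  obtain ⟨h1', h2'⟩ := tg_two h hc hc0 hJ hJ3
  obtain ⟨-, h3⟩ := h.ctx.two X σ (D0 σ s w X c) c J h.spos (sle1 h) (amp1 h) hc h1' (sig_le h hc) h2'
  exact h3 Y1 Y2 a1 a2 hY1 hY2 h1 h2 hD1 hD2 i hi

end Pool.Agent.H84.SRT
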